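import Mathlib

/-!
Random clique formulas, general resolution: definitions (helper82).
See the blueprint CAMP3_MP_ba3460_RANDOM_h82.md.
-/

namespace Pool.Agent.H82.RC

open Finset

variable {R m : ℕ} {α : Type} [Fintype α] [DecidableEq α]

/-- A position: a player and one of his coordinates. -/
abbrev Pos (R m : ℕ) := Fin R × Fin m

/-- Adjacency between the vertices `(p, x)`, `p` a part and `x` a letter. -/
abbrev Rel (R m : ℕ) (α : Type) := Pos R m → α → Pos R m → α → Bool

/-- A tuple of one player. -/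
abbrev Tup (m : ℕ) (α : Type) := Fin m → α

/-- A joint point. -/
abbrev Joint (R m : ℕ) (α : Type) := Fin R → Fin m → α

/-- The letter of a joint point at a position. -/
def ltr (x : Joint R m α) (p : Pos R m) : α := x p.1 p.2

/-- The cliques on the parts of player `a`. -/
def X (E : Rel R m α) (a : Fin R) : Finset (Tup m α) :=
  univ.filter fun z => ∀ i j, i ≠ j → E (a, i) (z i) (a, j) (z j) = true

/-- The points of `P` that agree with `c` on `J`. -/
def fib (P : Finset (Tup m α)) (J : Finset (Fin m)) (c : Tup m α) : Finset (Tup m α) :=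
  P.filter fun z => ∀ j ∈ J, z j = c j

/-- `P` is `(h, l)`-spread outside `K`. -/
def Spr (h l : ℕ) (K : Finset (Fin m)) (P : Finset (Tup m α)) : Prop :=
  ∀ J : Finset (Fin m), Disjoint J K → J.card ≤ l → ∀ c, h ^ J.card * (fib P J c).card ≤ P.card

/-- The tuple `z` of player `a` is complete to the letters of `y` at the positions of `W` (outside player `a`). -/
def comp (E : Rel R m α) (a : Fin R) (W : Finset (Pos R m)) (y : Joint R m α) (z : Tup m α) : Prop :=
  ∀ p ∈ W, p.1 ≠ a → ∀ i, E (a, i) (z i) p (ltr y p) = true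

instance (E : Rel R m α) (a : Fin R) (W : Finset (Pos R m)) (y : Joint R m α) :
    DecidablePred (comp E a W y) := fun z => by unfold comp; infer_instance

/-- The natural set: cliques of player `a` that agree with `c` on `K` and whose letter at `i` outside `K` is adjacent to
all the vertices of `S i`. -/
def Om (E : Rel R m α) (a : Fin R) (K : Finset (Fin m)) (c : Tup m α) (S : Fin m → Finset (Pos R m × α)) :
    Finset (Tup m α) :=
  (X E a).filter fun z => (∀ i ∈ K, z i = c i) ∧ ∀ i, i ∉ K → ∀ s ∈ S i, E (a, i) (z i) s.1 s.2 = true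

/-- The vertices of `y` at the positions of `W`. -/
def WL (W : Finset (Pos R m)) (y : Joint R m α) : Finset (Pos R m × α) := W.image fun p => (p, ltr y p)

/-- The natural size: `k` own letters fixed, `s` incidences with outside letters. -/
noncomputable def natR (q M m k s : ℕ) : ℝ :=
  (q : ℝ) ^ (M * (m - k)) / ((q : ℝ) ^ s * (q : ℝ) ^ (m.choose 2 - k.choose 2))

/-- `z` is adjacent at the coordinates of `F` to the letters of `y` at `J`. -/
def nb (E : Rel R m α) (a : Fin R) (F : Finset (Fin m)) (J : Finset (Pos R m)) (z : Tup m α) (y : Joint R m α) : Prop :=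
  ∀ i ∈ F, ∀ p ∈ J, E (a, i) (z i) p (ltr y p) = true

instance (E : Rel R m α) (a : Fin R) (F : Finset (Fin m)) (J : Finset (Pos R m)) (z : Tup m α) (y : Joint R m α) :
    Decidable (nb E a F J z y) := by unfold nb; infer_instance

/-- The centred indicator of `(p, c)` being adjacent to all the letters of `y` at `J`. -/
def Hf (q : ℕ) (E : Rel R m α) (p : Pos R m) (c : α) (J : Finset (Pos R m)) (y : Joint R m α) : ℝ :=
  (q : ℝ) ^ J.card * (if ∀ p' ∈ J, E p c p' (ltr y p') = true then 1 else 0) - 1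

/-- Sample `r` shares no letter (on `J`) with the other samples. -/
def Iso {N : ℕ} (J : Finset (Pos R m)) (ξ : Fin N → Joint R m α) (r : Fin N) : Prop :=
  ∀ r', r' ≠ r → ∀ p ∈ J, ltr (ξ r') p ≠ ltr (ξ r) p

instance {N : ℕ} (J : Finset (Pos R m)) (ξ : Fin N → Joint R m α) (r : Fin N) : Decidable (Iso J ξ r) := by
  unfold Iso; infer_instance

/-- The number of repeated letters of a sequence of samples. -/
def rep {N : ℕ} (J : Finset (Pos R m)) (ξ : Fin N → Joint R m α) : ℕ :=
  (((univ : Finset (Fin N)) ×ˢ J).filter fun rp => ∃ r', r' < rp.1 ∧ ltr (ξ r') rp.2 = ltr (ξ rp.1) rp.2).card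

/-- The letters of the points of `Ξ` at the positions of `J` are spread. -/
def LSpr (h : ℕ) (J : Finset (Pos R m)) (Ξ : Finset (Joint R m α)) : Prop :=
  ∀ J' ⊆ J, ∀ c : Joint R m α, h ^ J'.card * (Ξ.filter fun ξ => ∀ p ∈ J', ltr ξ p = ltr c p).card ≤ Ξ.card

/-- Upper bounds for the natural sets. -/
def Up (E : Rel R m α) (q M smax : ℕ) : Prop :=
  ∀ (a : Fin R) (K : Finset (Fin m)) (c : Tup m α) (S : Fin m → Finset (Pos R m × α)),
    (∀ i, ∀ s ∈ S i, s.1.1 ≠ a) → (∀ i, (S i).card ≤ smax) →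
    ((Om E a K c S).card : ℝ) ≤ q * natR q M m K.card (∑ i ∈ Kᶜ, (S i).card)

/-- Lower bound for the number of cliques of a player. -/
def Low (E : Rel R m α) (q M : ℕ) : Prop := ∀ a : Fin R, natR q M m 0 0 ≤ q * ((X E a).card : ℝ)

/-- One coordinate sums with an isolated sample are small. -/
def G1 (E : Rel R m α) (q M g k B1 : ℕ) : Prop :=
  ∀ (a : Fin R) (i : Fin m) (J : Finset (Pos R m)) (y : Fin (2 * k) → Joint R m α) (r : Fin (2 * k)),
    (∀ p ∈ J, p.1 ≠ a) → J.card ≤ g → Iso J y r →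
    |∑ c : α, ∏ r, Hf q E (a, i) c J (y r)| ≤ (q : ℝ) ^ (M - B1)

/-- Sums over natural sets with an isolated sample and many coordinates are small. -/
def G2 (E : Rel R m α) (q M g d k l1 G : ℕ) : Prop :=
  ∀ (a : Fin R) (K : Finset (Fin m)) (c : Tup m α) (W : Finset (Pos R m)) (v : Joint R m α) (A : Finset (Fin m))
    (J : Finset (Pos R m)) (y : Fin (2 * k) → Joint R m α) (r : Fin (2 * k)),
    (∀ p ∈ W, p.1 ≠ a) → W.card ≤ g → K.card ≤ d → Disjoint A K → l1 < A.card →
    (∀ p ∈ J, p.1 ≠ a) → Disjoint J W → J.card ≤ g → Iso J y r →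
    |∑ z ∈ Om E a K c (fun _ => WL W v), ∏ i ∈ A, ∏ r, Hf q E (a, i) (z i) J (y r)| * (q : ℝ) ^ G ≤
      natR q M m K.card ((m - K.card) * W.card)

/-- The decomposition constant. -/
noncomputable def Gam0 (m : ℕ) (α : Type) [Fintype α] : ℝ := 1 + Real.log (Fintype.card (Fin m → α))

/-- A player state: fixed coordinates and the current part. -/
abbrev PS (m : ℕ) (α : Type) := Finset (Fin m) × Finset (Tup m α)

/-- A joint state. -/
abbrev JS (R m : ℕ) (α : Type) := Fin R → PS m α

/-- `D` is a decomposition of `Q` outside `K0`. -/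
def IsDec (h l0 : ℕ) (Q : Finset (Tup m α)) (K0 : Finset (Fin m)) (D : Finset (PS m α)) : Prop :=
  (∀ z ∈ Q, ∃ e ∈ D, z ∈ e.2) ∧
  (∀ e ∈ D, e.2 ⊆ Q ∧ e.2.Nonempty ∧ Disjoint e.1 K0 ∧ (K0 ∪ e.1).card ≤ l0 ∧
    (∀ z ∈ e.2, ∀ z' ∈ e.2, ∀ i ∈ e.1, z i = z' i) ∧ Spr h (l0 - (K0 ∪ e.1).card) (K0 ∪ e.1) e.2) ∧
  ∑ e ∈ D, ((h : ℝ) ^ e.1.card)⁻¹ ≤ Gam0 m α

open Classical in
/-- The chosen decomposition (empty if there is none). -/
noncomputable def dec (h l0 : ℕ) (Q : Finset (Tup m α)) (K0 : Finset (Fin m)) : Finset (PS m α) :=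
  if hD : ∃ D, IsDec h l0 Q K0 D then hD.choose else ∅

open Classical in
/-- The chosen label and part of the point `z`. -/
noncomputable def lab (h l0 : ℕ) (Q : Finset (Tup m α)) (K0 : Finset (Fin m)) (z : Tup m α) : PS m α :=
  if hz : ∃ e ∈ dec h l0 Q K0, z ∈ e.2 then hz.choose else (∅, ∅)

/-- One round of the process for one player. -/
noncomputable def step1 (h l0 : ℕ) (E : Rel R m α) (a : Fin R) (W : Finset (Pos R m)) (y : Joint R m α) (z : Tup m α)
    (s : PS m α) : PS m α :=
  if s.2.filter (comp E a W y) = s.2 then s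
  else (s.1 ∪ (lab h l0 (s.2.filter (comp E a W y)) s.1 z).1, (lab h l0 (s.2.filter (comp E a W y)) s.1 z).2)

/-- The old positions that are fixed in the joint state. -/
def Wset (I : Finset (Pos R m)) (σ : JS R m α) : Finset (Pos R m) := I.filter fun p => p.2 ∈ (σ p.1).1

/-- The process. -/
noncomputable def proc (h l0 : ℕ) (E : Rel R m α) (Q : Fin R → Finset (Tup m α)) (I : Finset (Pos R m))
    (x : Joint R m α) : ℕ → JS R m α
  | 0 => fun a => lab h l0 (Q a) ∅ (x a)
  | t + 1 => fun a => step1 h l0 E a (Wset I (proc h l0 E Q I x t)) x (x a) (proc h l0 E Q I x t a)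

/-- The final state of the process. -/
noncomputable def fin (h l0 : ℕ) (E : Rel R m α) (Q : Fin R → Finset (Tup m α)) (I : Finset (Pos R m))
    (x : Joint R m α) : JS R m α := proc h l0 E Q I x (R * m + 1)

/-- The joint points on which the process is run. -/
def Sig (E : Rel R m α) (Q : Fin R → Finset (Tup m α)) (I : Finset (Pos R m)) : Finset (Joint R m α) :=
  univ.filter fun x => (∀ a, x a ∈ Q a) ∧ ∀ a, comp E a I x (x a)

/-- The final states with fixed coordinate sets `Kf`. -/
noncomputable def Reach (h l0 : ℕ) (E : Rel R m α) (Q : Fin R → Finset (Tup m α)) (I : Finset (Pos R m))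
    (Kf : Fin R → Finset (Fin m)) : Finset (JS R m α) :=
  ((Sig E Q I).image (fin h l0 E Q I)).filter fun σ => ∀ a, (σ a).1 = Kf a

/-- The total cost of the labels. -/
noncomputable def Gam (R m : ℕ) (α : Type) [Fintype α] : ℝ := (Gam0 m α) ^ (R * (R * m + 2))

/-- The exponent counting new letters of the other players. -/
def expo (l1 : ℕ) (a : Fin R) (I : Finset (Pos R m)) (Kf : Fin R → Finset (Fin m)) : ℕ :=
  ∑ b ∈ univ.erase a, min ((Kf b).filter fun i => (b, i) ∉ I).card l1

/-- The numbers of the argument. -/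
structure Par where
  (R m q M d k l1 H H2 e1 z : ℕ)

namespace Par
variable (p : Par)
/-- bound for the number of letters of the other players -/
def g : ℕ := p.R * p.d
/-- cap for the number of fixed coordinates -/
def l0 : ℕ := p.l1 + p.d
/-- spread exponent of the popular sets -/
def H3 : ℕ := p.H2 - 2
end Par

/-- `P` is relevant: many final states contain it as the part of player `a`. -/
def Rlv (h l0 h3 l1 : ℕ) (E : Rel R m α) (Q : Fin R → Finset (Tup m α)) (a : Fin R) (I : Finset (Pos R m))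
    (Kf : Fin R → Finset (Fin m)) (P : Finset (Tup m α)) : Prop :=
  h3 ^ expo l1 a I Kf ≤ ((Reach h l0 E Q I Kf).filter fun σ => (σ a).2 = P).card

/-- `P` is small. -/
def Sml (h h3 l1 Z : ℕ) (E : Rel R m α) (a : Fin R) (I : Finset (Pos R m)) (Kf : Fin R → Finset (Fin m))
    (P : Finset (Tup m α)) : Prop :=
  (P.card : ℝ) * (Z * 4 ^ (R * m) * Gam R m α * (h : ℝ) ^ (∑ b, (Kf b).card)) <
    ((X E a).card : ℝ) * (h3 : ℝ) ^ expo l1 a I Kf

open Classical in
/-- The points that become bad at a line with `T_s minus bad = Q`. -/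
noncomputable def newbad (h l0 h3 l1 Z : ℕ) (E : Rel R m α) (Q : Fin R → Finset (Tup m α)) (a : Fin R) :
    Finset (Tup m α) :=
  (Q a).filter fun z => ∃ I Kf P, z ∈ P ∧ Rlv h l0 h3 l1 E Q a I Kf P ∧ Sml h h3 l1 Z E a I Kf P

/-- The bad points before line `s`. -/
noncomputable def bad (h l0 h3 l1 Z : ℕ) (E : Rel R m α) (T : ℕ → Fin R → Finset (Tup m α)) :
    ℕ → Fin R → Finset (Tup m α)
  | 0 => fun _ => ∅
  | s + 1 => fun a => bad h l0 h3 l1 Z E T s a ∪
      newbad h l0 h3 l1 Z E (fun b => (T s b ∩ X E b) \ bad h l0 h3 l1 Z E T s b) a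

/-- The state of the adversary: spread `hs`, bad sets `bd`, line `T`. -/
def State (hs l1 d : ℕ) (E : Rel R m α) (bd T : Fin R → Finset (Tup m α)) : Prop :=
  ∃ (I : Finset (Pos R m)) (v : Joint R m α) (A : Fin R → Finset (Tup m α)),
    ∀ a, (univ.filter fun i : Fin m => (a, i) ∈ I).card ≤ d ∧ (A a).Nonempty ∧
      A a ⊆ (T a ∩ X E a) \ bd a ∧
      (∀ z ∈ A a, ∀ i, (a, i) ∈ I → z i = v a i) ∧ (∀ z ∈ A a, comp E a I v z) ∧
      Spr hs l1 (univ.filter fun i : Fin m => (a, i) ∈ I) (A a)

end Pool.Agent.H82.RC
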